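import Pool.Agent.W622.BK.Stm

set_option autoImplicit false

namespace Pool.Agent.W60.BK

open Module Pool.Agent.W622.BK

universe u

theorem t_SURZ : Pool.Agent.W622.BK.S_SURZ.{u} := by
  intro k _ E _ _ R X u x hx hxu η _
  refine ⟨(cur k E).symm (x.smulRight η), ?_, ?_⟩
  · show one k E ((cur k E).symm (x.smulRight η)) ∈ X
    have h : one k E ((cur k E).symm (x.smulRight η)) = (ev0 k E η) • x := by
      ext e
      unfold one
      rw [LinearMap.comp_apply, LinearEquiv.apply_symm_apply, LinearMap.smulRight_apply,
        map_smul, LinearMap.smul_apply, smul_eq_mul, smul_eq_mul, mul_comm]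
      rfl
    rw [h]
    exact X.smul_mem _ hx
  · rw [LinearEquiv.apply_symm_apply, LinearMap.smulRight_apply, hxu, one_smul]

end Pool.Agent.W60.BK
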